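import Pool.Agent.W5h84.PR.Loc

/-!
# The congruence subgroup property for the parts of order two
-/

set_option autoImplicit false

namespace Pool.Agent.W5h84.PR

open FreeGroup (of)
open Pool.Agent.W5h84.MT
open Pool.Agent.R569.CS
open scoped commutatorElement

variable {n : ℕ} {χ : Fn n →* ℤˣ}

theorem ad_one (n : ℕ) : Ad (1 : Fn n →* ℤˣ) (id : Fin n → Fin n) where
  inj := Function.injective_id
  one _ := rfl
  out l hl := (hl ⟨l, rfl⟩).elim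
  uniq l _ hl := (hl ⟨l, rfl⟩).elim

/-- the words for the change of basis -/
noncomputable def cw (χ : Fn n →* ℤˣ) (i₀ i : Fin n) : Fn n :=
  if i ≠ i₀ ∧ χ (of i) = -1 then of i₀ else 1

/-- the change of basis -/
noncomputable def ch (χ : Fn n →* ℤˣ) (i₀ : Fin n) : Fn n →* Fn n :=
  FreeGroup.lift fun i => of i * cw χ i₀ i

/-- the inverse of the change of basis -/
noncomputable def ch' (χ : Fn n →* ℤˣ) (i₀ : Fin n) : Fn n →* Fn n :=
  FreeGroup.lift fun i => of i * (cw χ i₀ i)⁻¹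

theorem ch_of (χ : Fn n →* ℤˣ) (i₀ i : Fin n) : ch χ i₀ (of i) = of i * cw χ i₀ i := by
  rw [ch, FreeGroup.lift_apply_of]

theorem ch'_of (χ : Fn n →* ℤˣ) (i₀ i : Fin n) : ch' χ i₀ (of i) = of i * (cw χ i₀ i)⁻¹ := by
  rw [ch', FreeGroup.lift_apply_of]

theorem cw_self (χ : Fn n →* ℤˣ) (i₀ : Fin n) : cw χ i₀ i₀ = 1 := by
  rw [cw, if_neg (fun h => h.1 rfl)]

theorem ch_cw (χ : Fn n →* ℤˣ) (i₀ i : Fin n) : ch χ i₀ (cw χ i₀ i) = cw χ i₀ i := by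
  rw [cw]
  split_ifs
  · rw [ch_of, cw_self, mul_one]
  · rw [map_one]

theorem ch'_cw (χ : Fn n →* ℤˣ) (i₀ i : Fin n) : ch' χ i₀ (cw χ i₀ i) = cw χ i₀ i := by
  rw [cw]
  split_ifs
  · rw [ch'_of, cw_self, inv_one, mul_one]
  · rw [map_one]

/-- the change of basis, as an automorphism -/
noncomputable def cb (χ : Fn n →* ℤˣ) (i₀ : Fin n) : MulAut (Fn n) :=
  MonoidHom.toMulEquiv (ch χ i₀) (ch' χ i₀)
    (by
      ext i
      rw [MonoidHom.comp_apply, ch_of, map_mul, ch'_of, ch'_cw, inv_mul_cancel_right]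
      rfl)
    (by
      ext i
      rw [MonoidHom.comp_apply, ch'_of, map_mul, ch_of, map_inv, ch_cw, mul_inv_cancel_right]
      rfl)

theorem cb_of (χ : Fn n →* ℤˣ) (i₀ i : Fin n) : cb χ i₀ (of i) = of i * cw χ i₀ i := ch_of χ i₀ i

theorem ad_cb {n : ℕ} (χ : Fn (n + 1) →* ℤˣ) (i₀ : Fin (n + 1)) (h : χ (of i₀) = -1) :
    Ad (χ.comp (cb χ i₀).toMonoidHom) i₀.succAbove where
  inj := Fin.succAbove_right_injective
  one i := by
    show χ (cb χ i₀ (of (i₀.succAbove i))) = 1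
    rw [cb_of, map_mul, cw]
    by_cases h1 : χ (of (i₀.succAbove i)) = -1
    · rw [if_pos ⟨Fin.succAbove_ne i₀ i, h1⟩, h1, h]
      decide
    · rw [if_neg (fun h2 => h1 h2.2), map_one, mul_one]
      exact (Int.units_eq_one_or _).resolve_right h1
  out l hl := by
    rw [Fin.range_succAbove] at hl
    have hl' : l = i₀ := by simpa using hl
    subst hl'
    show χ (cb χ l (of l)) = -1
    rw [cb_of, cw_self, mul_one, h]
  uniq l l' hl hl' := by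
    rw [Fin.range_succAbove] at hl hl'
    have h1 : l = i₀ := by simpa using hl
    have h2 : l' = i₀ := by simpa using hl'
    rw [h1, h2]

theorem loc (hn : 4 ≤ n) (χ : Fn n →* ℤˣ) (V : Subgroup (MulAut (Fn n)))
    [hV : V.Normal] (M : ℕ) (hM0 : M ≠ 0) (hM : ∀ φ : MulAut (Fn n), φ ^ M ∈ V)
    {φ : MulAut (Fn n)} (hφ : Hyp (4 ^ n * M) φ) :
    ∃ v ∈ V, v ∈ LA χ ∧ ∀ d, IsDer χ d → ∀ γ ∈ Gam n, d (v γ) = d (φ γ) := by
  obtain ⟨k, rfl⟩ : ∃ k, n = k + 4 := ⟨n - 4, by omega⟩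
  by_cases h : ∃ i₀, χ (of i₀) = -1
  · obtain ⟨i₀, h0⟩ := h
    exact loc_conj (k := k) _ (ad_cb χ i₀ h0) V M hM0 hM (by omega) hφ
  · push Not at h
    have h1 : χ = 1 := MonoidHom.ext fun x => by
      induction x using FreeGroup.induction_on with
      | C1 => rw [map_one, map_one]
      | of i => exact (Int.units_eq_one_or _).resolve_right (h i)
      | inv_of i hi => rw [map_inv, hi]; rfl
      | mul x y hx hy => rw [map_mul, hx, hy]; rfl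
    subst h1
    exact loc_std (k := k + 1) (ad_one (k + 4)) V M hM0 hM (by omega) hφ

theorem asm (hn : 4 ≤ n) (V : Subgroup (MulAut (Fn n)))
    [hV : V.Normal] (M : ℕ) (hM0 : M ≠ 0) (hM : ∀ φ : MulAut (Fn n), φ ^ M ∈ V)
    {φ : MulAut (Fn n)} (hφ : Hyp (4 ^ n * M) φ) (S : Finset (Fn n →* ℤˣ)) :
    ∃ v ∈ V, v ∈ TA n ∧ (∀ χ, χ ∉ S → Triv χ v) ∧
      ∀ χ ∈ S, ∀ d, IsDer χ d → ∀ γ ∈ Gam n, d (v γ) = d (φ γ) := by
  classical
  induction S using Finset.induction_on with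
  | empty =>
    exact ⟨1, one_mem _, one_mem _, fun χ _ => Triv.one, fun χ hχ => absurd hχ (by simp)⟩
  | insert χ₀ S h0 ih =>
    obtain ⟨v, h1, h2, h3, h4⟩ := ih
    obtain ⟨w, g1, g2, g3⟩ := loc hn χ₀ V M hM0 hM hφ
    refine ⟨v * w, mul_mem h1 g1, mul_mem h2 g2.1, fun χ hχ => ?_, fun χ hχ d hd γ hγ => ?_⟩
    · rw [Finset.mem_insert, not_or] at hχ
      exact (h3 χ hχ.2).mul (g2.2 χ hχ.1)
    · rw [MulAut.mul_apply]
      rw [Finset.mem_insert] at hχ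
      rcases hχ with rfl | hχ
      · rw [h3 χ h0 d hd _ (TA.gam hγ), g3 d hd γ hγ]
      · rw [h4 χ hχ d hd _ (TA.gam hγ)]
        have hne : χ ≠ χ₀ := fun e' => h0 (e' ▸ hχ)
        exact g2.2 χ hne _ (hd.comp' (TA.fix hφ.ta χ)) γ hγ

theorem mem_of_hyp (hn : 4 ≤ n) (V : Subgroup (MulAut (Fn n)))
    [hV : V.Normal] (M : ℕ) (hM0 : M ≠ 0) (hM : ∀ φ : MulAut (Fn n), φ ^ M ∈ V)
    (hI : ∀ φ : MulAut (Fn n), (∀ x, φ x * x⁻¹ ∈ Gam n) →
      (∀ x ∈ Gam n, φ x * x⁻¹ ∈ ⁅Gam n, Gam n⁆) → φ ∈ V)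
    {φ : MulAut (Fn n)} (hφ : Hyp (4 ^ n * M) φ) : φ ∈ V := by
  obtain ⟨s, hs⟩ : ∃ s : Finset (Fn n →* ℤˣ), ∀ χ, χ ∈ s :=
    ⟨(Set.toFinite (Set.univ : Set (Fn n →* ℤˣ))).toFinset, fun χ => by simp⟩
  obtain ⟨v, h1, h2, -, h4⟩ := asm hn V M hM0 hM hφ s
  have h5 : v⁻¹ * φ ∈ V := by
    have ht : v⁻¹ * φ ∈ TA n := mul_mem (inv_mem h2) hφ.ta
    refine hI _ ht fun x hx => triv_all (fun χ d hd γ hγ => ?_) hx
    rw [MulAut.mul_apply]
    have e1 := h4 χ (hs χ) _ (hd.comp' (TA.fix (inv_mem h2) χ)) γ hγ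
    simp only [inv_ap] at e1
    exact e1.symm
  have := mul_mem h1 h5
  rwa [mul_inv_cancel_left] at this

/-- the subgroup of finite index for `m` -/
def Kd (n m : ℕ) : Subgroup (Fn n) :=
  Gam n ⊓ ⨅ θ : Fn n →* Equiv.Perm (ZMod m), θ.ker

theorem mem_Kd {m : ℕ} {x : Fn n} : x ∈ Kd n m ↔ x ∈ Gam n ∧
    ∀ θ : Fn n →* Equiv.Perm (ZMod m), θ x = 1 := by
  rw [Kd, Subgroup.mem_inf, Subgroup.mem_iInf]
  rfl

instance (m : ℕ) : (Kd n m).Characteristic := by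
  rw [Subgroup.characteristic_iff_le_comap]
  intro φ x hx
  rw [mem_Kd] at hx
  show φ x ∈ Kd n m
  rw [mem_Kd]
  exact ⟨TA.gam hx.1, fun θ => hx.2 (θ.comp φ.toMonoidHom)⟩

theorem Kd_fi (m : ℕ) (hm : m ≠ 0) : (Kd n m).FiniteIndex := by
  have : NeZero m := ⟨hm⟩
  have : Finite (Fn n →* Equiv.Perm (ZMod m)) :=
    Finite.of_equiv _ (FreeGroup.lift (α := Fin n) (β := Equiv.Perm (ZMod m)))
  have h1 : (⨅ θ : Fn n →* Equiv.Perm (ZMod m), θ.ker).FiniteIndex :=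
    Subgroup.finiteIndex_iInf fun θ => Subgroup.finiteIndex_ker θ
  unfold Kd
  infer_instance

theorem hyp_of_act {m : ℕ} {φ : MulAut (Fn n)} (h : ∀ x, φ x * x⁻¹ ∈ Kd n m) : Hyp m φ := by
  refine ⟨fun x => (mem_Kd.1 (h x)).1, fun χ d hd x => ?_⟩
  have h1 := (mem_Kd.1 (h x)).2 (permOf hd (ZMod m))
  have h2 := congrArg (fun p : Equiv.Perm (ZMod m) => p 0) h1
  change aff (χ (φ x * x⁻¹)) ((d (φ x * x⁻¹) : ℤ) : ZMod m) 0 = 0 at h2
  rw [aff_apply, mul_zero, zero_add] at h2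
  exact (ZMod.intCast_zmod_eq_zero_iff_dvd _ _).1 h2

/-- **The congruence subgroup property for the parts of order two.** -/
theorem csp_base (hn : 4 ≤ n) (V : Subgroup (MulAut (Fn n))) (hV : V.FiniteIndex)
    (hI : ∀ φ : MulAut (Fn n), (∀ x, φ x * x⁻¹ ∈ Gam n) →
      (∀ x ∈ Gam n, φ x * x⁻¹ ∈ ⁅Gam n, Gam n⁆) → φ ∈ V) :
    ∃ K : Subgroup (Fn n), K.Characteristic ∧ K.FiniteIndex ∧
      ∀ φ : MulAut (Fn n), (∀ x, φ x * x⁻¹ ∈ K) → φ ∈ V := by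
  have hfi : V.normalCore.FiniteIndex := inferInstance
  have hM : ∀ φ : MulAut (Fn n), φ ^ V.normalCore.index ∈ V.normalCore := fun φ =>
    Subgroup.pow_index_mem V.normalCore φ
  have hle : lay (MonoidHom.id (MulAut (Fn n))) (Gam n) ⁅Gam n, Gam n⁆ ≤ V.normalCore := by
    have := lay_normal (MonoidHom.id (MulAut (Fn n))) (Gam n) ⁅Gam n, Gam n⁆
    refine Subgroup.normal_le_normalCore.2 fun φ hφ => hI φ hφ.1 hφ.2
  refine ⟨Kd n (4 ^ n * V.normalCore.index), inferInstance, Kd_fi _ ?_, fun φ hφ => ?_⟩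
  · exact mul_ne_zero (by positivity) hfi.index_ne_zero
  · exact V.normalCore_le (mem_of_hyp hn V.normalCore _ hfi.index_ne_zero hM
      (fun φ h1 h2 => hle ⟨h1, h2⟩) (hyp_of_act hφ))

end Pool.Agent.W5h84.PR
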