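import Mathlib

/-!
# Derivations of free groups with respect to characters of order two
-/

set_option autoImplicit false

namespace Pool.Agent.W5h84.PR

open FreeGroup (of)

variable {n : ℕ}

/-- the free group of rank `n` -/
abbrev Fn (n : ℕ) := FreeGroup (Fin n)

/-- `d` is a derivation with respect to the character `χ` -/
def IsDer (χ : Fn n →* ℤˣ) (d : Fn n → ℤ) : Prop := ∀ x y, d (x * y) = d x + (χ x : ℤ) * d y

theorem u_inv (u : ℤˣ) : u⁻¹ = u := by
  rcases Int.units_eq_one_or u with h | h <;> rw [h] <;> decide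

theorem u_sq (u : ℤˣ) : (u : ℤ) * u = 1 := by
  rcases Int.units_eq_one_or u with h | h <;> rw [h] <;> simp

namespace IsDer

variable {χ : Fn n →* ℤˣ} {d d' : Fn n → ℤ}

theorem one (h : IsDer χ d) : d 1 = 0 := by
  have := h 1 1
  rw [mul_one, map_one] at this
  simpa using this

theorem inv (h : IsDer χ d) (x : Fn n) : d x⁻¹ = -((χ x : ℤ) * d x) := by
  have := h x⁻¹ x
  rw [inv_mul_cancel, h.one, map_inv, u_inv] at this
  linear_combination -this

theorem mul_of_one (h : IsDer χ d) {x : Fn n} (hx : χ x = 1) (y : Fn n) :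
    d (x * y) = d x + d y := by
  rw [h, hx]; simp

theorem conj (h : IsDer χ d) {y : Fn n} (hy : χ y = 1) (g : Fn n) :
    d (g * y * g⁻¹) = (χ g : ℤ) * d y := by
  rw [h (g * y), h g, h.inv, map_mul, hy, mul_one]
  linear_combination (-(d g)) * u_sq (χ g)

theorem sub (h : IsDer χ d) (h' : IsDer χ d') : IsDer χ (fun x => d x - d' x) := by
  intro x y
  simp only [h x y, h' x y]
  ring

theorem smul (h : IsDer χ d) (c : ℤ) : IsDer χ (fun x => c * d x) := by
  intro x y
  simp only [h x y]
  ring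

theorem sum {ι : Type*} (s : Finset ι) (f : ι → Fn n → ℤ) (h : ∀ i ∈ s, IsDer χ (f i)) :
    IsDer χ (fun x => ∑ i ∈ s, f i x) := by
  intro x y
  simp only
  rw [Finset.sum_congr rfl fun i hi => h i hi x y, Finset.sum_add_distrib, Finset.mul_sum]

theorem ext_gen (h : IsDer χ d) (h' : IsDer χ d') (e : ∀ i, d (of i) = d' (of i)) (x : Fn n) :
    d x = d' x := by
  induction x using FreeGroup.induction_on with
  | C1 => rw [h.one, h'.one]
  | of i => exact e i
  | inv_of i _ => rw [h.inv, h'.inv, e i]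
  | mul x y hx hy => rw [h, h', hx, hy]

theorem zero : IsDer χ (fun _ => 0) := by
  intro x y
  simp

theorem comp (h : IsDer χ d) (φ : MulAut (Fn n)) :
    IsDer (χ.comp φ.toMonoidHom) (fun x => d (φ x)) := by
  intro x y
  show d (φ (x * y)) = d (φ x) + (χ (φ x) : ℤ) * d (φ y)
  rw [map_mul, h]

theorem comp' (h : IsDer χ d) {φ : MulAut (Fn n)} (hφ : ∀ x, χ (φ x) = χ x) :
    IsDer χ (fun x => d (φ x)) := by
  intro x y
  show d (φ (x * y)) = d (φ x) + (χ x : ℤ) * d (φ y)
  rw [map_mul, h, hφ]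

end IsDer

/-- affine maps -/
def aff {R : Type} [Ring R] (u : ℤˣ) (v : R) : Equiv.Perm R where
  toFun t := ((u : ℤ) : R) * t + v
  invFun t := ((u : ℤ) : R) * (t - v)
  left_inv t := by
    have h : ((u : ℤ) : R) * ((u : ℤ) : R) = 1 := by
      rw [← Int.cast_mul, u_sq, Int.cast_one]
    show ((u : ℤ) : R) * (((u : ℤ) : R) * t + v - v) = t
    rw [add_sub_cancel_right, ← mul_assoc, h, one_mul]
  right_inv t := by
    have h : ((u : ℤ) : R) * ((u : ℤ) : R) = 1 := by
      rw [← Int.cast_mul, u_sq, Int.cast_one]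
    show ((u : ℤ) : R) * (((u : ℤ) : R) * (t - v)) + v = t
    rw [← mul_assoc, h, one_mul, sub_add_cancel]

theorem aff_apply {R : Type} [Ring R] (u : ℤˣ) (v t : R) : aff u v t = ((u : ℤ) : R) * t + v := rfl

theorem exists_der (χ : Fn n →* ℤˣ) (v : Fin n → ℤ) : ∃ d, IsDer χ d ∧ ∀ i, d (of i) = v i := by
  let θ : Fn n →* Equiv.Perm ℤ := FreeGroup.lift fun i => aff (χ (of i)) (v i)
  have h1 : ∀ x t, θ x t = (χ x : ℤ) * t + θ x 0 := by
    intro x
    induction x using FreeGroup.induction_on with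
    | C1 => intro t; simp
    | of i =>
      intro t
      have : θ (of i) = aff (χ (of i)) (v i) := FreeGroup.lift_apply_of
      rw [this, aff_apply, aff_apply]
      simp
    | inv_of i h =>
      intro t
      have h2 : ∀ t, θ (of i) (θ (of i)⁻¹ t) = t := by
        intro t
        rw [← Equiv.Perm.mul_apply, ← map_mul, mul_inv_cancel, map_one, Equiv.Perm.one_apply]
      have e1 := h2 t
      have e2 := h2 0
      rw [h] at e1 e2
      rw [map_inv χ, u_inv]
      linear_combination (χ (of i) : ℤ) * e1 - (χ (of i) : ℤ) * e2 -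
        (θ (of i)⁻¹ t - θ (of i)⁻¹ 0) * u_sq (χ (of i))
    | mul x y hx hy =>
      intro t
      rw [map_mul, Equiv.Perm.mul_apply, Equiv.Perm.mul_apply, hy t, hx, hx (θ y 0), map_mul]
      push_cast
      ring
  refine ⟨fun x => θ x 0, ?_, ?_⟩
  · intro x y
    show θ (x * y) 0 = θ x 0 + (χ x : ℤ) * θ y 0
    rw [map_mul, Equiv.Perm.mul_apply, h1 x (θ y 0)]
    ring
  · intro i
    show θ (of i) 0 = v i
    have : θ (of i) = aff (χ (of i)) (v i) := FreeGroup.lift_apply_of
    rw [this, aff_apply]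
    simp

/-- the derivation with value `1` at the generator `l` and `0` at the others -/
noncomputable def D (χ : Fn n →* ℤˣ) (l : Fin n) : Fn n → ℤ :=
  (exists_der χ (Pi.single l 1)).choose

theorem D_der (χ : Fn n →* ℤˣ) (l : Fin n) : IsDer χ (D χ l) :=
  (exists_der χ (Pi.single l 1)).choose_spec.1

theorem D_of (χ : Fn n →* ℤˣ) (l i : Fin n) : D χ l (of i) = if i = l then 1 else 0 := by
  rw [D, (exists_der χ (Pi.single l 1)).choose_spec.2 i, Pi.single_apply]

theorem IsDer.eq_sum {χ : Fn n →* ℤˣ} {d : Fn n → ℤ} (h : IsDer χ d) (x : Fn n) :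
    d x = ∑ l, d (of l) * D χ l x := by
  refine h.ext_gen (IsDer.sum _ _ fun l _ => (D_der χ l).smul _) (fun i => ?_) x
  simp only [D_of]
  simp

/-- the permutations of `R` given by a derivation -/
def permOf {χ : Fn n →* ℤˣ} {d : Fn n → ℤ} (h : IsDer χ d) (R : Type) [Ring R] :
    Fn n →* Equiv.Perm R where
  toFun x := aff (χ x) (d x : R)
  map_one' := by
    ext t
    rw [h.one, map_one, aff_apply]
    simp
  map_mul' x y := by
    ext t
    rw [Equiv.Perm.mul_apply, aff_apply, aff_apply, aff_apply, map_mul, h]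
    push_cast
    noncomm_ring

/-- The subgroup `Γ`: the intersection of the kernels of all characters of order two. -/
def Gam (n : ℕ) : Subgroup (Fn n) := ⨅ χ : Fn n →* ℤˣ, χ.ker

theorem mem_Gam {x : Fn n} : x ∈ Gam n ↔ ∀ χ : Fn n →* ℤˣ, χ x = 1 := by
  rw [Gam, Subgroup.mem_iInf]
  rfl

instance : (Gam n).Characteristic := by
  rw [Subgroup.characteristic_iff_le_comap]
  intro φ x hx
  rw [mem_Gam] at hx
  show φ x ∈ Gam n
  rw [mem_Gam]
  intro χ
  exact hx (χ.comp φ.toMonoidHom)

instance : Finite (Fn n →* ℤˣ) := Finite.of_equiv _ (FreeGroup.lift (α := Fin n) (β := ℤˣ))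

instance : (Gam n).FiniteIndex := by
  unfold Gam
  have : ∀ χ : Fn n →* ℤˣ, χ.ker.FiniteIndex := fun χ => Subgroup.finiteIndex_ker χ
  exact Subgroup.finiteIndex_iInf this

/-- elements which are homologically trivial in `Γ` -/
theorem comm_of_hom (Γ : Subgroup (Fn n)) {z : Fn n} (hz : z ∈ Γ)
    (h : ∀ f : Γ →* Multiplicative ℤ, f ⟨z, hz⟩ = 1) : z ∈ ⁅Γ, Γ⁆ := by
  have hfree : IsFreeGroup Γ := inferInstance
  let X := IsFreeGroup.Generators Γ
  let e : Γ ≃* FreeGroup X := IsFreeGroup.toFreeGroup Γ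
  let w := e ⟨z, hz⟩
  have h1 : ∀ x : X, ∀ f : FreeGroup X →* Multiplicative ℤ, f w = 1 := by
    intro x f
    exact h (f.comp e.toMonoidHom)
  let A := FreeAbelianGroup X
  let q : FreeGroup X →* Multiplicative (X →₀ ℤ) :=
    (AddMonoidHom.toMultiplicative (FreeAbelianGroup.toFinsupp (X := X))).comp
      (Abelianization.of (G := FreeGroup X))
  have h2 : q w = 1 := by
    have h3 : ∀ x : X, (Multiplicative.toAdd (q w)) x = 0 := by
      intro x
      exact h1 x ((AddMonoidHom.toMultiplicative (Finsupp.applyAddHom x)).comp q)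
    exact Finsupp.ext h3
  have h4 : (Abelianization.of w : Abelianization (FreeGroup X)) = 1 := by
    have h5 : FreeAbelianGroup.toFinsupp (X := X)
        (Additive.ofMul (Abelianization.of w)) = 0 := h2
    have h6 := congrArg (Finsupp.toFreeAbelianGroup (X := X)) h5
    rw [Finsupp.toFreeAbelianGroup_toFinsupp, map_zero] at h6
    exact h6
  have h7 : w ∈ commutator (FreeGroup X) := (QuotientGroup.eq_one_iff w).1 h4
  have h8 : (⟨z, hz⟩ : Γ) ∈ commutator Γ := by
    have : commutator (FreeGroup X) = (commutator Γ).map e.toMonoidHom := by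
      rw [commutator_def, commutator_def, Subgroup.map_commutator]
      congr 1 <;>
      · rw [← MonoidHom.range_eq_map]
        exact (MonoidHom.range_eq_top.2 e.surjective).symm
    rw [this] at h7
    obtain ⟨y, hy, hyw⟩ := h7
    have : y = ⟨z, hz⟩ := e.injective hyw
    rwa [← this]
  have h9 : z ∈ (commutator Γ).map Γ.subtype := ⟨_, h8, rfl⟩
  rwa [Subgroup.map_subtype_commutator] at h9

end Pool.Agent.W5h84.PR
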