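import Pool.Agent.W5h84.PR.Mat
import Pool.Agent.R569.CS.Main

/-!
# The congruence subgroups of the parts
-/

set_option autoImplicit false

namespace Pool.Agent.W5h84.PR

open FreeGroup (of)
open Pool.Agent.W5h84.MT
open Pool.Agent.R569.CS

variable {n r : ℕ} {χ : Fn n →* ℤˣ} {e : Fin r → Fin n}

theorem wd_D (χ : Fn n →* ℤˣ) {i j : Fin n} (h : j ≠ i) (hi : χ (of i) = 1) (hj : χ (of j) = 1)
    {d : Fn n → ℤ} (hd : IsDer χ d) : d (wd χ j (oth i)) = 2 ^ n * d (of j) := by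
  have h1 := al_D χ h hi hj (by have := i.2; omega) hd
  change d (tv i _ (of i)) = _ at h1
  rw [tv_i, hd, hi] at h1
  simpa using h1

theorem Ad.ne (h : Ad χ e) {i j : Fin r} (hij : i ≠ j) : e j ≠ e i := fun e' => hij (h.inj e').symm

theorem Ad.Bm_al (h : Ad χ e) {i j : Fin r} (hij : i ≠ j) :
    Bm χ e (al χ (e i) (e j) (h.ne hij)) = Matrix.transvection i j (2 ^ n) := by
  refine h.Bm_tv hij _ _ fun k => ?_
  show D χ (e k) (wd χ (e j) (oth (e i))) = _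
  rw [wd_D χ (h.ne hij) (h.one i) (h.one j) (D_der χ (e k)), D_of]
  by_cases hk : k = j
  · rw [if_pos hk, if_pos (congrArg e hk).symm, mul_one]
  · rw [if_neg hk, if_neg (fun e' => hk (h.inj e').symm), mul_zero]

/-- the automorphisms which act trivially on `F / Γ` -/
abbrev TA (n : ℕ) : Subgroup (MulAut (Fn n)) := act (MonoidHom.id (MulAut (Fn n))) (Gam n)

theorem TA.fix {φ : MulAut (Fn n)} (h : φ ∈ TA n) (χ : Fn n →* ℤˣ) : Fix χ φ := by
  intro x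
  have h1 := mem_Gam.1 (h x) χ
  rw [map_mul, map_inv, mul_inv_eq_one] at h1
  exact h1

theorem TA.of_fix {φ : MulAut (Fn n)} (h : ∀ χ : Fn n →* ℤˣ, Fix χ φ) : φ ∈ TA n := by
  intro x
  rw [mem_Gam]
  intro χ
  rw [map_mul, map_inv, mul_inv_eq_one]
  exact h χ x

theorem TA.gam {φ : MulAut (Fn n)} {γ : Fn n} (hγ : γ ∈ Gam n) : φ γ ∈ Gam n :=
  Subgroup.characteristic_iff_le_comap.1 inferInstance φ hγ

instance : (TA n).Normal := act_normal _ _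

theorem ap_inv (g : MulAut (Fn n)) (x : Fn n) : g (g⁻¹ x) = x := by
  rw [← MulAut.mul_apply, mul_inv_cancel, MulAut.one_apply]

theorem inv_ap (g : MulAut (Fn n)) (x : Fn n) : g⁻¹ (g x) = x := by
  rw [← MulAut.mul_apply, inv_mul_cancel, MulAut.one_apply]

theorem Triv.one : Triv χ (1 : MulAut (Fn n)) := fun _ _ _ _ => rfl

theorem Triv.mul {φ ψ : MulAut (Fn n)} (h : Triv χ φ) (h' : Triv χ ψ) : Triv χ (φ * ψ) := by
  intro d hd γ hγ
  rw [MulAut.mul_apply, h d hd _ (TA.gam hγ), h' d hd _ hγ]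

theorem Triv.inv {φ : MulAut (Fn n)} (h : Triv χ φ) : Triv χ φ⁻¹ := by
  intro d hd γ hγ
  have := h d hd (φ⁻¹ γ) (TA.gam hγ)
  rw [← MulAut.mul_apply, mul_inv_cancel, MulAut.one_apply] at this
  exact this.symm

theorem Triv.conj {φ : MulAut (Fn n)} (g : MulAut (Fn n)) (h : Triv (χ.comp g.toMonoidHom) φ) :
    Triv χ (g * φ * g⁻¹) := by
  intro d hd γ hγ
  have := h _ (hd.comp g) (g⁻¹ γ) (TA.gam hγ)
  rw [ap_inv] at this
  exact this

/-- the automorphisms trivial on `F / Γ` and on all parts but the one of `χ` -/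
def LA (χ : Fn n →* ℤˣ) : Subgroup (MulAut (Fn n)) where
  carrier := {ψ | ψ ∈ TA n ∧ ∀ χ', χ' ≠ χ → Triv χ' ψ}
  one_mem' := ⟨one_mem _, fun _ _ => Triv.one⟩
  mul_mem' := fun h h' => ⟨mul_mem h.1 h'.1, fun χ' hχ => (h.2 χ' hχ).mul (h'.2 χ' hχ)⟩
  inv_mem' := fun h => ⟨inv_mem h.1, fun χ' hχ => (h.2 χ' hχ).inv⟩

theorem mem_LA {ψ : MulAut (Fn n)} : ψ ∈ LA χ ↔ ψ ∈ TA n ∧ ∀ χ', χ' ≠ χ → Triv χ' ψ := Iff.rfl

theorem LA.conj {ψ : MulAut (Fn n)} (g : MulAut (Fn n)) (h : ψ ∈ LA (χ.comp g.toMonoidHom)) :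
    g * ψ * g⁻¹ ∈ LA χ := by
  refine ⟨(inferInstance : (TA n).Normal).conj_mem _ h.1 g, fun χ' hχ => Triv.conj g ?_⟩
  apply h.2
  intro h3
  apply hχ
  ext i
  have h4 := DFunLike.congr_fun h3 (g⁻¹ (of i))
  change χ' (g (g⁻¹ (of i))) = χ (g (g⁻¹ (of i))) at h4
  rw [ap_inv] at h4
  rw [h4]

theorem LA.conj_fix {ψ g : MulAut (Fn n)} (hg : Fix χ g) (h : ψ ∈ LA χ) : g * ψ * g⁻¹ ∈ LA χ := by
  apply LA.conj
  have : χ.comp g.toMonoidHom = χ := MonoidHom.ext hg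
  rwa [this]

/-- the matrices of the elements of `V` which are trivial on the other parts -/
def HV (V : Subgroup (MulAut (Fn n))) (h : Ad χ e) : Subgroup (SLn r) where
  carrier := {g | ∃ ψ ∈ V, ψ ∈ LA χ ∧ Bm χ e ψ = g.1}
  one_mem' := ⟨1, one_mem _, one_mem _, h.Bm_one⟩
  mul_mem' := by
    rintro a b ⟨ψ, h1, h2, h3⟩ ⟨ψ', h1', h2', h3'⟩
    refine ⟨ψ' * ψ, mul_mem h1' h1, mul_mem h2' h2, ?_⟩
    rw [h.Bm_mul (TA.fix h2'.1 χ) (TA.fix h2.1 χ), h3, h3']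
    rfl
  inv_mem' := by
    rintro a ⟨ψ, h1, h2, h3⟩
    refine ⟨ψ⁻¹, inv_mem h1, inv_mem h2, ?_⟩
    have h4 : a.1 * Bm χ e ψ⁻¹ = 1 := by
      rw [← h3, ← h.Bm_mul (TA.fix h2.1 χ).inv (TA.fix h2.1 χ), inv_mul_cancel, h.Bm_one]
    have h5 : (a⁻¹).1 * a.1 = 1 := by
      show (a⁻¹ * a).1 = 1
      rw [inv_mul_cancel]
      rfl
    calc Bm χ e ψ⁻¹ = (a⁻¹).1 * a.1 * Bm χ e ψ⁻¹ := by rw [h5, one_mul]
      _ = (a⁻¹).1 := by rw [mul_assoc, h4, mul_one]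

theorem mem_HV {V : Subgroup (MulAut (Fn n))} {h : Ad χ e} {g : SLn r} :
    g ∈ HV V h ↔ ∃ ψ ∈ V, ψ ∈ LA χ ∧ Bm χ e ψ = g.1 := Iff.rfl

theorem Ad.Bm_inv_mul (h : Ad χ e) {φ : MulAut (Fn n)} (hφ : Fix χ φ) :
    Bm χ e φ⁻¹ * Bm χ e φ = 1 := by
  rw [← h.Bm_mul hφ hφ.inv, mul_inv_cancel, h.Bm_one]

theorem Ad.Bm_inv (h : Ad χ e) {φ : MulAut (Fn n)} (hφ : Fix χ φ) {g : SLn r}
    (hg : Bm χ e φ = g.1) : Bm χ e φ⁻¹ = (g⁻¹).1 := by
  have h1 := h.Bm_inv_mul hφ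
  rw [hg] at h1
  have h5 : g.1 * (g⁻¹).1 = 1 := by
    show (g * g⁻¹).1 = 1
    rw [mul_inv_cancel]
    rfl
  calc Bm χ e φ⁻¹ = Bm χ e φ⁻¹ * (g.1 * (g⁻¹).1) := by rw [h5, mul_one]
    _ = (g⁻¹).1 := by rw [← mul_assoc, h1, one_mul]

theorem comm_tv {i j k : Fin r} (hij : i ≠ j) (hik : i ≠ k) (hkj : k ≠ j) (x y : ℤ) :
    (el hik x)⁻¹ * ((el hkj y)⁻¹ * (el hik x * el hkj y)) = el hij (x * y) := by
  have key : el hik x * el hkj y = el hkj y * (el hik x * el hij (x * y)) := by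
    apply Subtype.ext
    simp only [val_mul, el_val, Matrix.transvection, mul_add, add_mul, mul_one, one_mul,
      Matrix.single_mul_single_same, Matrix.single_mul_single_of_ne _ _ _ _ hik.symm,
      Matrix.single_mul_single_of_ne _ _ _ _ hkj.symm,
      Matrix.single_mul_single_of_ne _ _ _ _ hij.symm, add_zero, mul_zero]
    abel
  rw [key, inv_mul_cancel_left, inv_mul_cancel_left]

/-- commutators of the elements `al` -/
theorem Ad.kap (h : Ad χ e) {i j k : Fin r} (hij : i ≠ j) (hik : i ≠ k) (hkj : k ≠ j) :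
    ∃ κ ∈ LA χ, Bm χ e κ = (el hij (4 ^ n) : SLn r).1 := by
  set a := al χ (e i) (e k) (h.ne hik) with ha
  set b := al χ (e k) (e j) (h.ne hkj) with hb
  have hBa : Bm χ e a = (el hik (2 ^ n) : SLn r).1 := h.Bm_al hik
  have hBb : Bm χ e b = (el hkj (2 ^ n) : SLn r).1 := h.Bm_al hkj
  have fa : ∀ χ', Fix χ' a := fun χ' => al_fix χ χ' _ _ _
  have fb : ∀ χ', Fix χ' b := fun χ' => al_fix χ χ' _ _ _
  have ta : a ∈ TA n := TA.of_fix fa
  have tb : b ∈ TA n := TA.of_fix fb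
  refine ⟨b * a * b⁻¹ * a⁻¹, ⟨?_, fun χ' hχ => ?_⟩, ?_⟩
  · exact mul_mem (mul_mem (mul_mem tb ta) (inv_mem tb)) (inv_mem ta)
  · have h1 : ∃ l, χ' (of l) ≠ χ (of l) := by
      by_contra hcon
      push Not at hcon
      exact hχ (MonoidHom.ext fun x => by
        induction x using FreeGroup.induction_on with
        | C1 => rw [map_one, map_one]
        | of i => exact hcon i
        | inv_of i hi => rw [map_inv, map_inv, hi]
        | mul x y hx hy => rw [map_mul, map_mul, hx, hy])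
    obtain ⟨l, hl⟩ := h1
    by_cases hli : l = e i
    · -- `b` is trivial
      have hlk : l ≠ e k := by
        rw [hli]
        exact fun e' => hik (h.inj e')
      have hT : Triv χ' b := fun d hd γ _ => al_triv χ χ' _ hlk hl hd γ
      have hT2 : Triv χ' (a * b⁻¹ * a⁻¹) := by
        apply Triv.conj
        have : χ'.comp a.toMonoidHom = χ' := MonoidHom.ext (fa χ')
        rw [this]
        exact hT.inv
      have := hT.mul hT2
      rwa [show b * (a * b⁻¹ * a⁻¹) = b * a * b⁻¹ * a⁻¹ by group] at this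
    · have hT : Triv χ' a := fun d hd γ _ => al_triv χ χ' _ hli hl hd γ
      have hT2 : Triv χ' (b * a * b⁻¹) := by
        apply Triv.conj
        have : χ'.comp b.toMonoidHom = χ' := MonoidHom.ext (fb χ')
        rw [this]
        exact hT
      exact hT2.mul hT.inv
  · have e1 := h.Bm_inv (fa χ) hBa
    have e2 := h.Bm_inv (fb χ) hBb
    rw [h.Bm_mul (((fb χ).mul (fa χ)).mul (fb χ).inv) (fa χ).inv,
      h.Bm_mul ((fb χ).mul (fa χ)) (fb χ).inv, h.Bm_mul (fb χ) (fa χ), e1, e2, hBa, hBb]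
    have e3 := congrArg Subtype.val (comm_tv hij hik hkj (2 ^ n) (2 ^ n))
    have e4 : (2 : ℤ) ^ n * 2 ^ n = 4 ^ n := by rw [← mul_pow]; norm_num
    rw [e4] at e3
    rw [← e3]
    rfl

end Pool.Agent.W5h84.PR
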