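import Pool.Agent.W5h84.PR.Kap

/-!
# Local approximation of automorphisms on the parts
-/

set_option autoImplicit false

namespace Pool.Agent.W5h84.PR

open FreeGroup (of)
open Pool.Agent.W5h84.MT
open Pool.Agent.R569.CS

variable {n r : ℕ} {χ : Fn n →* ℤˣ} {e : Fin r → Fin n}

/-- `x_{e i} ↦ x_{e i} x_{e j}^t` -/
def tt (e : Fin r → Fin n) (i j : Fin r) (h : e j ≠ e i) (t : ℤ) : MulAut (Fn n) :=
  tv (e i) ⟨of (e j) ^ t, zpow_mem (of_mem_Wo h) t⟩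

theorem der_zpow' {d : Fn n → ℤ} (hd : IsDer χ d) {y : Fn n} (hy : χ y = 1) (t : ℤ) :
    d (y ^ t) = t * d y := by
  have hp : ∀ k : ℕ, d (y ^ k) = k * d y := by
    intro k
    induction k with
    | zero => simp [hd.one]
    | succ k ih =>
      rw [pow_succ, hd.mul_of_one (by rw [map_pow, hy, one_pow]), ih]
      push_cast
      ring
  obtain ⟨k, rfl | rfl⟩ := t.eq_nat_or_neg
  · simpa using hp k
  · rw [zpow_neg, zpow_natCast, hd.inv, map_pow, hy, one_pow, hp]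
    simp

theorem Ad.Bm_tt (h : Ad χ e) {i j : Fin r} (hij : i ≠ j) (t : ℤ) :
    Bm χ e (tt e i j (h.ne hij) t) = (el hij t : SLn r).1 := by
  refine h.Bm_tv hij _ _ fun k => ?_
  show D χ (e k) (of (e j) ^ t) = _
  rw [der_zpow' (D_der χ (e k)) (h.one j), D_of]
  by_cases hk : k = j
  · rw [if_pos hk, if_pos (congrArg e hk).symm, mul_one]
  · rw [if_neg hk, if_neg (fun e' => hk (h.inj e').symm), mul_zero]

theorem Ad.tt_fix (h : Ad χ e) {i j : Fin r} (hij : i ≠ j) (t : ℤ) :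
    Fix χ (tt e i j (h.ne hij) t) := by
  apply tv_fix
  show χ (of (e j) ^ t) = 1
  rw [map_zpow, h.one, one_zpow]

theorem Ad.Bm_zpow (h : Ad χ e) {φ : MulAut (Fn n)} (hφ : Fix χ φ) {g : SLn r}
    (hg : Bm χ e φ = g.1) (t : ℤ) : Bm χ e (φ ^ t) = (g ^ t).1 := by
  have hf : ∀ k : ℕ, Fix χ (φ ^ k) := by
    intro k
    induction k with
    | zero => exact Fix.one
    | succ k ih => rw [pow_succ]; exact ih.mul hφ
  have hp : ∀ k : ℕ, Bm χ e (φ ^ k) = (g ^ k).1 := by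
    intro k
    induction k with
    | zero => simp [h.Bm_one]
    | succ k ih =>
      rw [pow_succ, h.Bm_mul (hf k) hφ, ih, hg, pow_succ']
      rfl
  obtain ⟨k, rfl | rfl⟩ := t.eq_nat_or_neg
  · simpa using hp k
  · rw [zpow_neg, zpow_natCast, zpow_neg, zpow_natCast]
    exact h.Bm_inv (hf k) (hp k)

theorem el_zpow {i j : Fin r} (h : i ≠ j) (s t : ℤ) : (el h s : SLn r) ^ t = el h (t * s) := by
  have hp : ∀ k : ℕ, (el h s : SLn r) ^ k = el h (k * s) := by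
    intro k
    induction k with
    | zero => simp
    | succ k ih =>
      rw [pow_succ, ih, ← el_add]
      congr 1
      push_cast
      ring
  obtain ⟨k, rfl | rfl⟩ := t.eq_nat_or_neg
  · simpa using hp k
  · rw [zpow_neg, zpow_natCast, hp, el_inv]
    congr 1
    ring

theorem HV_good {k : ℕ} {e : Fin (k + 3) → Fin n} (h : Ad χ e) (V : Subgroup (MulAut (Fn n)))
    [hV : V.Normal] (M : ℕ) (hM : ∀ φ : MulAut (Fn n), φ ^ M ∈ V) :
    Good (4 ^ n * M) (HV V h) := by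
  refine ⟨?_, ?_⟩
  · rintro i j hij t g ⟨ψ, h1, h2, h3⟩
    set τ := tt e i j (h.ne hij) t with hτ
    have f1 : Fix χ τ := h.tt_fix hij t
    have f2 : Bm χ e τ = (el hij t : SLn (k + 3)).1 := h.Bm_tt hij t
    refine ⟨τ⁻¹ * ψ * τ⁻¹⁻¹, hV.conj_mem _ h1 _, LA.conj_fix f1.inv h2, ?_⟩
    rw [inv_inv, h.Bm_mul (f1.inv.mul (TA.fix h2.1 χ)) f1, h.Bm_mul f1.inv (TA.fix h2.1 χ),
      h.Bm_inv f1 f2, f2, h3, ← mul_assoc]
    rfl
  · intro i j hij t
    obtain ⟨l, hl1, hl2⟩ := Fin.exists_ne_and_ne_of_two_lt i j (by omega)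
    obtain ⟨κ, h1, h2⟩ := h.kap hij hl1.symm hl2
    refine ⟨κ ^ ((M : ℤ) * t), ?_, zpow_mem h1 _, ?_⟩
    · rw [zpow_mul, zpow_natCast]
      exact zpow_mem (hM κ) t
    · have e1 : (M : ℤ) * t * 4 ^ n = ((4 ^ n * M : ℕ) : ℤ) * t := by
        push_cast
        ring
      rw [h.Bm_zpow (TA.fix h1.1 χ) h2, el_zpow, e1]

/-- `φ` acts trivially on `F / Γ` and almost trivially modulo `m` -/
structure Hyp (m : ℕ) (φ : MulAut (Fn n)) : Prop where
  ta : φ ∈ TA n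
  dv : ∀ (χ : Fn n →* ℤˣ) (d : Fn n → ℤ), IsDer χ d → ∀ x, (m : ℤ) ∣ d (φ x * x⁻¹)

theorem Hyp.conj {m : ℕ} {φ : MulAut (Fn n)} (h : Hyp m φ) (g : MulAut (Fn n)) :
    Hyp m (g * φ * g⁻¹) := by
  refine ⟨(inferInstance : (TA n).Normal).conj_mem _ h.ta g, fun χ d hd x => ?_⟩
  have := h.dv _ _ (hd.comp g) (g⁻¹ x)
  simpa [MulAut.mul_apply, map_mul, map_inv, ap_inv] using this

theorem loc_std {k : ℕ} {e : Fin (k + 3) → Fin n} (h : Ad χ e) (V : Subgroup (MulAut (Fn n)))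
    [hV : V.Normal] (M : ℕ) (hM0 : M ≠ 0) (hM : ∀ φ : MulAut (Fn n), φ ^ M ∈ V) (hn : 1 ≤ n)
    {φ : MulAut (Fn n)} (hφ : Hyp (4 ^ n * M) φ) :
    ∃ v ∈ V, v ∈ LA χ ∧ ∀ d, IsDer χ d → ∀ γ ∈ Gam n, d (v γ) = d (φ γ) := by
  set m := 4 ^ n * M with hm
  have f1 : Fix χ φ := TA.fix hφ.ta χ
  have h4 : 4 ∣ m := dvd_mul_of_dvd_left (dvd_pow_self 4 (by omega)) M
  have hm0 : m ≠ 0 := by positivity
  have hm4 : 4 ≤ m := Nat.le_of_dvd (Nat.pos_of_ne_zero hm0) h4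
  have hc : ∀ i j, (m : ℤ) ∣ Bm χ e φ i j - (1 : Matrix (Fin (k + 3)) (Fin (k + 3)) ℤ) i j := by
    intro i j
    have h1 := hφ.dv χ _ (D_der χ (e j)) (of (e i))
    have h2 : D χ (e j) (φ (of (e i)) * (of (e i))⁻¹) =
        D χ (e j) (φ (of (e i))) - D χ (e j) (of (e i)) := by
      rw [D_der, (D_der χ (e j)).inv, f1, h.one]
      simp
      ring
    rw [h2] at h1
    have h3 := congrFun (congrFun h.Bm_one i) j
    rw [Bm_apply, MulAut.one_apply] at h3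
    rw [Bm_apply, ← h3]
    exact h1
  have hdet : (Bm χ e φ).det = 1 := by
    have h1 := congrArg Matrix.det (h.Bm_inv_mul f1)
    rw [Matrix.det_mul, Matrix.det_one] at h1
    have h2 : (m : ℤ) ∣ (Bm χ e φ).det - 1 := by
      have h3 : (Bm χ e φ).map (Int.castRingHom (ZMod m)) = 1 := by
        ext i j
        have h4 := (ZMod.intCast_zmod_eq_zero_iff_dvd _ _).2 (hc i j)
        rw [Int.cast_sub, sub_eq_zero] at h4
        rw [Matrix.map_apply]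
        show ((Bm χ e φ i j : ℤ) : ZMod m) = _
        rw [h4, Matrix.one_apply, Matrix.one_apply]
        split_ifs <;> simp
      have h5 := RingHom.map_det (Int.castRingHom (ZMod m)) (Bm χ e φ)
      rw [RingHom.mapMatrix_apply, h3, Matrix.det_one] at h5
      rw [← ZMod.intCast_zmod_eq_zero_iff_dvd, Int.cast_sub, Int.cast_one, sub_eq_zero]
      exact h5
    have h3 := Int.isUnit_iff.1 (IsUnit.of_mul_eq_one_right _ h1)
    rcases h3 with h3 | h3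
    · exact h3
    · rw [h3] at h2
      have := Int.le_of_dvd (by norm_num) ((dvd_neg.2 h2))
      omega
  obtain ⟨v, h1, h2, h3⟩ := MT.main h4 hm0 k (HV_good h V M hM) ⟨Bm χ e φ, hdet⟩ (cong_iff.2 hc)
  exact ⟨v, h1, h2, fun d hd γ hγ => h.agree (TA.fix h2.1 χ) f1 h3 hd (mem_Gam.1 hγ χ)⟩

/-- the local approximation, for a character conjugate to a standard one -/
theorem loc_conj {k : ℕ} {e : Fin (k + 3) → Fin n} (g : MulAut (Fn n))
    (h : Ad (χ.comp g.toMonoidHom) e) (V : Subgroup (MulAut (Fn n)))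
    [hV : V.Normal] (M : ℕ) (hM0 : M ≠ 0) (hM : ∀ φ : MulAut (Fn n), φ ^ M ∈ V) (hn : 1 ≤ n)
    {φ : MulAut (Fn n)} (hφ : Hyp (4 ^ n * M) φ) :
    ∃ v ∈ V, v ∈ LA χ ∧ ∀ d, IsDer χ d → ∀ γ ∈ Gam n, d (v γ) = d (φ γ) := by
  have h0 : Hyp (4 ^ n * M) (g⁻¹ * φ * g) := by
    have := hφ.conj g⁻¹
    rwa [inv_inv] at this
  obtain ⟨v, h1, h2, h3⟩ := loc_std h V M hM0 hM hn h0
  refine ⟨g * v * g⁻¹, hV.conj_mem _ h1 g, LA.conj g h2, fun d hd γ hγ => ?_⟩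
  have h4 := h3 _ (hd.comp g) (g⁻¹ γ) (TA.gam hγ)
  simpa [MulAut.mul_apply, ap_inv] using h4

end Pool.Agent.W5h84.PR
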