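import Pool.Agent.W5h84.PR.Tr
import Pool.Agent.W5h84.MT.Main

/-!
# The matrices of the automorphisms on the parts of the homology of `Γ`
-/

set_option autoImplicit false

namespace Pool.Agent.W5h84.PR

open FreeGroup (of)
open Pool.Agent.W5h84.MT

variable {n r : ℕ}

/-- The generators `x_{e i}` are in the kernel of `χ`, and there is at most one other generator,
not in the kernel. -/
structure Ad (χ : Fn n →* ℤˣ) (e : Fin r → Fin n) : Prop where
  inj : Function.Injective e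
  one : ∀ i, χ (of (e i)) = 1
  out : ∀ l, l ∉ Set.range e → χ (of l) = -1
  uniq : ∀ l l', l ∉ Set.range e → l' ∉ Set.range e → l = l'

variable {χ : Fn n →* ℤˣ} {e : Fin r → Fin n}

theorem Ad.two_D (h : Ad χ e) {l : Fin n} (hl : l ∉ Set.range e) (x : Fn n) :
    2 * D χ l x = 1 - (χ x : ℤ) := by
  have h1 : IsDer χ (fun x => 1 - (χ x : ℤ)) := by
    intro x y
    simp only [map_mul]
    push_cast
    ring
  refine ((D_der χ l).smul 2).ext_gen h1 (fun i => ?_) x
  simp only [D_of]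
  by_cases hi : i ∈ Set.range e
  · obtain ⟨j, rfl⟩ := hi
    rw [if_neg (fun e' => hl ⟨j, e'⟩), h.one j]
    simp
  · rw [if_pos (h.uniq _ _ hi hl), h.out i hi]
    simp

theorem Ad.D_zero (h : Ad χ e) {l : Fin n} (hl : l ∉ Set.range e) {x : Fn n} (hx : χ x = 1) :
    D χ l x = 0 := by
  have := h.two_D hl x
  rw [hx] at this
  simp at this
  exact this

/-- `φ` preserves `χ` -/
def Fix (χ : Fn n →* ℤˣ) (φ : MulAut (Fn n)) : Prop := ∀ x, χ (φ x) = χ x

theorem Fix.one : Fix χ 1 := fun _ => rfl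

theorem Fix.mul {φ ψ : MulAut (Fn n)} (h : Fix χ φ) (h' : Fix χ ψ) : Fix χ (φ * ψ) := by
  intro x
  rw [MulAut.mul_apply, h, h']

theorem Fix.inv {φ : MulAut (Fn n)} (h : Fix χ φ) : Fix χ φ⁻¹ := by
  intro x
  have := h (φ⁻¹ x)
  rw [← MulAut.mul_apply, mul_inv_cancel, MulAut.one_apply] at this
  exact this.symm

/-- the matrix of `φ` -/
noncomputable def Bm (χ : Fn n →* ℤˣ) (e : Fin r → Fin n) (φ : MulAut (Fn n)) :
    Matrix (Fin r) (Fin r) ℤ := Matrix.of fun i j => D χ (e j) (φ (of (e i)))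

theorem Bm_apply (φ : MulAut (Fn n)) (i j : Fin r) : Bm χ e φ i j = D χ (e j) (φ (of (e i))) := rfl

theorem Ad.Bm_one (h : Ad χ e) : Bm χ e 1 = 1 := by
  ext i j
  rw [Bm_apply, MulAut.one_apply, D_of, Matrix.one_apply]
  by_cases hij : i = j
  · rw [if_pos hij, if_pos (congrArg e hij)]
  · rw [if_neg hij, if_neg (fun e' => hij (h.inj e'))]

theorem Ad.sum_eq (h : Ad χ e) {d : Fn n → ℤ} (hd : IsDer χ d) {x : Fn n} (hx : χ x = 1) :
    d x = ∑ k : Fin r, d (of (e k)) * D χ (e k) x := by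
  rw [hd.eq_sum x]
  symm
  apply Finset.sum_of_injOn e
  · exact h.inj.injOn
  · intro a _
    simp
  · intro l _ hl
    have : l ∉ Set.range e := by
      rintro ⟨k, rfl⟩
      exact hl ⟨k, by simp, rfl⟩
    rw [h.D_zero this hx, mul_zero]
  · intro i _
    rfl

theorem Ad.Bm_mul (h : Ad χ e) {φ ψ : MulAut (Fn n)} (hφ : Fix χ φ) (hψ : Fix χ ψ) :
    Bm χ e (φ * ψ) = Bm χ e ψ * Bm χ e φ := by
  ext i j
  rw [Bm_apply, MulAut.mul_apply, Matrix.mul_apply]
  have h1 : χ (ψ (of (e i))) = 1 := by rw [hψ, h.one]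
  have h2 := h.sum_eq ((D_der χ (e j)).comp' hφ) h1
  rw [h2]
  refine Finset.sum_congr rfl fun k _ => ?_
  rw [Bm_apply, Bm_apply, mul_comm]

/-- automorphisms with the same matrix agree on the `χ`-part -/
theorem Ad.agree (h : Ad χ e) {φ ψ : MulAut (Fn n)} (hφ : Fix χ φ) (hψ : Fix χ ψ)
    (hB : Bm χ e φ = Bm χ e ψ) {d : Fn n → ℤ} (hd : IsDer χ d) {γ : Fn n} (hγ : χ γ = 1) :
    d (φ γ) = d (ψ γ) := by
  have h1 : IsDer χ (fun x => d (φ x) - d (ψ x)) := (hd.comp' hφ).sub (hd.comp' hψ)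
  have h2 := h.sum_eq h1 hγ
  have h3 : ∀ k : Fin r, d (φ (of (e k))) - d (ψ (of (e k))) = 0 := by
    intro k
    have e1 : χ (φ (of (e k))) = 1 := by rw [hφ, h.one]
    have e2 : χ (ψ (of (e k))) = 1 := by rw [hψ, h.one]
    rw [h.sum_eq hd e1, h.sum_eq hd e2, ← Finset.sum_sub_distrib]
    refine Finset.sum_eq_zero fun l _ => ?_
    have := congrFun (congrFun hB k) l
    rw [Bm_apply, Bm_apply] at this
    rw [this, sub_self]
  have h4 : d (φ γ) - d (ψ γ) = 0 := by
    have h5 : d (φ γ) - d (ψ γ) =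
      ∑ k : Fin r, (d (φ (of (e k))) - d (ψ (of (e k)))) * D χ (e k) γ := h2
    rw [h5]
    refine Finset.sum_eq_zero fun k _ => ?_
    rw [h3 k, zero_mul]
  linarith

/-! ### Transvections -/

/-- the words without the generator `i` -/
def Wo (i : Fin n) : Subgroup (Fn n) := Subgroup.closure {x | ∃ k, k ≠ i ∧ x = of k}

theorem of_mem_Wo {i k : Fin n} (h : k ≠ i) : of k ∈ Wo i := Subgroup.subset_closure ⟨k, h, rfl⟩

/-- the endomorphism `x_i ↦ x_i w` -/
def te (i : Fin n) (w : Fn n) : Fn n →* Fn n := FreeGroup.lift fun k => if k = i then of i * w else of k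

theorem te_i (i : Fin n) (w : Fn n) : te i w (of i) = of i * w := by
  rw [te, FreeGroup.lift_apply_of, if_pos rfl]

theorem te_ne {i k : Fin n} (w : Fn n) (h : k ≠ i) : te i w (of k) = of k := by
  rw [te, FreeGroup.lift_apply_of, if_neg h]

theorem te_Wo {i : Fin n} (w : Fn n) {x : Fn n} (hx : x ∈ Wo i) : te i w x = x := by
  induction hx using Subgroup.closure_induction with
  | mem x hx =>
    obtain ⟨k, hk, rfl⟩ := hx
    exact te_ne w hk
  | one => exact map_one _
  | mul x y _ _ hx hy => rw [map_mul, hx, hy]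
  | inv x _ hx => rw [map_inv, hx]

theorem te_comp {i : Fin n} {w w' : Fn n} (hw : w ∈ Wo i) (hww : w' * w = 1) :
    (te i w').comp (te i w) = MonoidHom.id _ := by
  ext k
  by_cases hk : k = i
  · subst hk
    rw [MonoidHom.comp_apply, te_i, map_mul, te_i, te_Wo _ hw, mul_assoc, hww, mul_one]
    rfl
  · rw [MonoidHom.comp_apply, te_ne _ hk, te_ne _ hk]
    rfl

/-- the automorphism `x_i ↦ x_i w`, for a word `w` without `x_i` -/
def tv (i : Fin n) (w : Wo i) : MulAut (Fn n) :=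
  MonoidHom.toMulEquiv (te i w.1) (te i w.1⁻¹) (te_comp w.2 (inv_mul_cancel _))
    (te_comp (inv_mem w.2) (mul_inv_cancel _))

theorem tv_i (i : Fin n) (w : Wo i) : tv i w (of i) = of i * w.1 := te_i i w.1

theorem tv_ne {i k : Fin n} (w : Wo i) (h : k ≠ i) : tv i w (of k) = of k := te_ne w.1 h

theorem tv_fix {i : Fin n} {w : Wo i} (hw : χ w.1 = 1) : Fix χ (tv i w) := by
  have : χ.comp (tv i w).toMonoidHom = χ := by
    ext k
    show ((χ (tv i w (of k)) : ℤˣ) : ℤ) = χ (of k)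
    by_cases hk : k = i
    · subst hk
      rw [tv_i, map_mul, hw, mul_one]
    · rw [tv_ne w hk]
  intro x
  exact DFunLike.congr_fun this x

/-- the words with prescribed derivations -/
def wd (χ : Fn n →* ℤˣ) (j : Fin n) (L : List (Fin n)) : Fn n :=
  L.foldr (fun k w => w * (of k * w * (of k)⁻¹) ^ ((χ (of k) : ℤˣ) : ℤ)) (of j ^ 2)

theorem wd_nil (χ : Fn n →* ℤˣ) (j : Fin n) : wd χ j [] = of j ^ 2 := rfl

theorem wd_cons (χ : Fn n →* ℤˣ) (j k : Fin n) (L : List (Fin n)) : wd χ j (k :: L) =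
    wd χ j L * (of k * wd χ j L * (of k)⁻¹) ^ ((χ (of k) : ℤˣ) : ℤ) := rfl

theorem wd_mem (χ : Fn n →* ℤˣ) {i j : Fin n} (hj : j ≠ i) (L : List (Fin n))
    (hL : ∀ k ∈ L, k ≠ i) : wd χ j L ∈ Wo i := by
  induction L with
  | nil => rw [wd_nil]; exact pow_mem (of_mem_Wo hj) 2
  | cons k L ih =>
    rw [wd_cons]
    have h1 := ih fun k' hk' => hL k' (List.mem_cons_of_mem _ hk')
    have h2 := of_mem_Wo (hL k (List.mem_cons_self))
    exact mul_mem h1 (zpow_mem (mul_mem (mul_mem h2 h1) (inv_mem h2)) _)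

theorem wd_gam (χ χ' : Fn n →* ℤˣ) (j : Fin n) (L : List (Fin n)) : χ' (wd χ j L) = 1 := by
  induction L with
  | nil =>
    rw [wd_nil, map_pow, sq]
    exact Units.ext (u_sq _)
  | cons k L ih =>
    rw [wd_cons, map_mul, ih, one_mul, map_zpow, map_mul, map_mul, ih, map_inv, mul_one,
      mul_inv_cancel, one_zpow]

theorem der_zpow {χ' : Fn n →* ℤˣ} {d : Fn n → ℤ} (hd : IsDer χ' d) {y : Fn n} (hy : χ' y = 1)
    (u : ℤˣ) : d (y ^ (u : ℤ)) = (u : ℤ) * d y := by
  rcases Int.units_eq_one_or u with h | h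
  · rw [h]; simp
  · rw [h]
    have : d y⁻¹ = - d y := by rw [hd.inv, hy]; simp
    simpa using this

theorem wd_der (χ : Fn n →* ℤˣ) {χ' : Fn n →* ℤˣ} {d : Fn n → ℤ} (hd : IsDer χ' d) (j : Fin n)
    (L : List (Fin n)) : d (wd χ j L) =
      (L.map fun k => (1 + (χ (of k) : ℤ) * (χ' (of k) : ℤ))).prod *
        ((1 + (χ' (of j) : ℤ)) * d (of j)) := by
  induction L with
  | nil =>
    rw [wd_nil, sq, hd]
    simp
    ring
  | cons k L ih =>
    have h1 : χ' (of k * wd χ j L * (of k)⁻¹) = 1 := by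
      rw [map_mul, map_mul, wd_gam, map_inv, mul_one, mul_inv_cancel]
    rw [wd_cons, hd.mul_of_one (wd_gam χ χ' j L), der_zpow hd h1, hd.conj (wd_gam χ χ' j L), ih,
      List.map_cons, List.prod_cons]
    ring

/-- the list of the other indices -/
def oth (i : Fin n) : List (Fin n) := (List.finRange n).filter (· ≠ i)

theorem mem_oth {i k : Fin n} : k ∈ oth i ↔ k ≠ i := by simp [oth]

theorem length_oth (i : Fin n) : (oth i).length = n - 1 := by
  have h1 : (oth i).Nodup := (List.nodup_finRange n).filter _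
  have h2 : (oth i).toFinset = Finset.univ.erase i := by
    ext k
    simp [mem_oth]
  rw [← List.toFinset_card_of_nodup h1, h2, Finset.card_erase_of_mem (Finset.mem_univ _),
    Finset.card_univ, Fintype.card_fin]

/-- the transvection-like automorphism `x_i ↦ x_i w` attached to `χ` -/
def al (χ : Fn n →* ℤˣ) (i j : Fin n) (h : j ≠ i) : MulAut (Fn n) :=
  tv i ⟨wd χ j (oth i), wd_mem χ h _ fun _ hk => mem_oth.1 hk⟩

theorem al_fix (χ χ' : Fn n →* ℤˣ) (i j : Fin n) (h : j ≠ i) : Fix χ' (al χ i j h) :=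
  tv_fix (wd_gam χ χ' j _)

/-- `al χ i j` acts trivially on all derivations for characters which differ from `χ` at an index
different from `i` -/
theorem al_triv (χ χ' : Fn n →* ℤˣ) {i j : Fin n} (h : j ≠ i) {k : Fin n} (hk : k ≠ i)
    (hkk : χ' (of k) ≠ χ (of k)) {d : Fn n → ℤ} (hd : IsDer χ' d) (x : Fn n) :
    d (al χ i j h x) = d x := by
  have h0 : d (wd χ j (oth i)) = 0 := by
    rw [wd_der χ hd]
    have h1 : (1 + (χ (of k) : ℤ) * (χ' (of k) : ℤ)) = 0 := by
      rcases Int.units_eq_one_or (χ (of k)) with h1 | h1 <;>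
      rcases Int.units_eq_one_or (χ' (of k)) with h2 | h2
      · exact absurd (h2.trans h1.symm) hkk
      · rw [h1, h2]; simp
      · rw [h1, h2]; simp
      · exact absurd (h2.trans h1.symm) hkk
    have h2 : ((oth i).map fun k => (1 + (χ (of k) : ℤ) * (χ' (of k) : ℤ))).prod = 0 := by
      apply List.prod_eq_zero
      rw [List.mem_map]
      exact ⟨k, mem_oth.2 hk, h1⟩
    rw [h2, zero_mul]
  refine (hd.comp' (al_fix χ χ' i j h)).ext_gen hd (fun l => ?_) x
  by_cases hl : l = i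
  · subst hl
    show d (tv l _ (of l)) = _
    rw [tv_i, hd]
    show _ + _ * d (wd χ j (oth l)) = _
    rw [h0, mul_zero, add_zero]
  · show d (tv i _ (of l)) = _
    rw [tv_ne _ hl]

theorem al_D (χ : Fn n →* ℤˣ) {i j : Fin n} (h : j ≠ i) (hi : χ (of i) = 1) (hj : χ (of j) = 1)
    (hn : 1 ≤ n) {d : Fn n → ℤ} (hd : IsDer χ d) :
    d (al χ i j h (of i)) = d (of i) + 2 ^ n * d (of j) := by
  show d (tv i _ (of i)) = _
  rw [tv_i, hd]
  show _ + _ * d (wd χ j (oth i)) = _
  rw [wd_der χ hd, hi, hj]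
  have h1 : ((oth i).map fun k => (1 + (χ (of k) : ℤ) * (χ (of k) : ℤ))).prod = 2 ^ (n - 1) := by
    have h2 : ((oth i).map fun k => (1 + (χ (of k) : ℤ) * (χ (of k) : ℤ))) =
        List.replicate (n - 1) 2 := by
      rw [List.eq_replicate_iff]
      refine ⟨by rw [List.length_map, length_oth], ?_⟩
      intro b hb
      rw [List.mem_map] at hb
      obtain ⟨k, _, rfl⟩ := hb
      rw [u_sq]
      norm_num
    rw [h2, List.prod_replicate]
  rw [h1]
  obtain ⟨m, rfl⟩ : ∃ m, n = m + 1 := ⟨n - 1, by omega⟩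
  simp only [Nat.add_sub_cancel]
  push_cast
  ring

/-- the matrix of an automorphism `x_{e i} ↦ x_{e i} w` -/
theorem Ad.Bm_tv (h : Ad χ e) {i j : Fin r} (hij : i ≠ j) (w : Wo (e i)) (c : ℤ)
    (hw : ∀ k, D χ (e k) w.1 = if k = j then c else 0) :
    Bm χ e (tv (e i) w) = Matrix.transvection i j c := by
  ext a b
  rw [Bm_apply, Matrix.transvection, Matrix.add_apply, Matrix.one_apply, Matrix.single_apply]
  have h1 : (if e a = e b then (1 : ℤ) else 0) = if a = b then 1 else 0 := by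
    by_cases hab : a = b
    · rw [if_pos hab, if_pos (congrArg e hab)]
    · rw [if_neg hab, if_neg (fun e' => hab (h.inj e'))]
  by_cases ha : a = i
  · subst ha
    rw [tv_i, D_der, D_of, hw, h.one, h1]
    by_cases hb : b = j
    · simp [hb]
    · simp [hb, Ne.symm hb]
  · rw [tv_ne w (fun e' => ha (h.inj e')), D_of, h1,
      if_neg (c := i = a ∧ j = b) (fun e' => ha e'.1.symm), add_zero]

end Pool.Agent.W5h84.PR
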