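import Pool.Agent.W5h84.PR.Asm

/-!
# The case of the abelianization, and the subgroup generated by the squares
-/

set_option autoImplicit false

namespace Pool.Agent.W5h84.PR

open FreeGroup (of)
open Pool.Agent.W5h84.MT
open Pool.Agent.R569.CS
open scoped commutatorElement

variable {n : ℕ}

theorem fix_one (φ : MulAut (Fn n)) : Fix (1 : Fn n →* ℤˣ) φ := fun _ => rfl

/-- the matrices of the elements of `V` on the abelianization -/
def HT (V : Subgroup (MulAut (Fn n))) : Subgroup (SLn n) where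
  carrier := {g | ∃ ψ ∈ V, Bm 1 id ψ = g.1}
  one_mem' := ⟨1, one_mem _, (ad_one n).Bm_one⟩
  mul_mem' := by
    rintro a b ⟨ψ, h1, h3⟩ ⟨ψ', h1', h3'⟩
    refine ⟨ψ' * ψ, mul_mem h1' h1, ?_⟩
    rw [(ad_one n).Bm_mul (fix_one _) (fix_one _), h3, h3']
    rfl
  inv_mem' := by
    rintro a ⟨ψ, h1, h3⟩
    exact ⟨ψ⁻¹, inv_mem h1, (ad_one n).Bm_inv (fix_one _) h3⟩

theorem HT_good (V : Subgroup (MulAut (Fn n))) [hV : V.Normal] (M : ℕ)
    (hM : ∀ φ : MulAut (Fn n), φ ^ M ∈ V) : Good (4 * M) (HT V) := by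
  refine ⟨?_, ?_⟩
  · rintro i j hij t g ⟨ψ, h1, h3⟩
    set τ := tt id i j ((ad_one n).ne hij) t with hτ
    have f2 : Bm 1 id τ = (el hij t : SLn n).1 := (ad_one n).Bm_tt hij t
    refine ⟨τ⁻¹ * ψ * τ⁻¹⁻¹, hV.conj_mem _ h1 _, ?_⟩
    rw [inv_inv, (ad_one n).Bm_mul (fix_one _) (fix_one _),
      (ad_one n).Bm_mul (fix_one _) (fix_one _), (ad_one n).Bm_inv (fix_one _) f2, f2, h3,
      ← mul_assoc]
    rfl
  · intro i j hij t
    refine ⟨(tt id i j ((ad_one n).ne hij) (4 * t)) ^ M, hM _, ?_⟩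
    have := (ad_one n).Bm_zpow (fix_one _) ((ad_one n).Bm_tt hij (4 * t)) M
    rw [zpow_natCast, el_zpow] at this
    rw [this]
    congr 2
    push_cast
    ring

/-- homologically trivial elements of the free group -/
theorem comm_top {z : Fn n} (h : ∀ d, IsDer (1 : Fn n →* ℤˣ) d → d z = 0) :
    z ∈ ⁅(⊤ : Subgroup (Fn n)), (⊤ : Subgroup (Fn n))⁆ := by
  refine comm_of_hom ⊤ (Subgroup.mem_top z) fun f => ?_
  have hd : IsDer (1 : Fn n →* ℤˣ) (fun x => Multiplicative.toAdd (f ⟨x, Subgroup.mem_top x⟩)) := by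
    intro x y
    have e1 : (⟨x * y, Subgroup.mem_top _⟩ : (⊤ : Subgroup (Fn n))) =
        ⟨x, Subgroup.mem_top _⟩ * ⟨y, Subgroup.mem_top _⟩ := rfl
    simp only [e1, map_mul, toAdd_mul, MonoidHom.one_apply, Units.val_one, one_mul]
  exact Multiplicative.toAdd.injective (h _ hd)

theorem mem_of_hyp_top {k : ℕ} (V : Subgroup (MulAut (Fn (k + 3))))
    [hV : V.Normal] (M : ℕ) (hM0 : M ≠ 0) (hM : ∀ φ : MulAut (Fn (k + 3)), φ ^ M ∈ V)
    (hI : ∀ φ : MulAut (Fn (k + 3)),
      (∀ x, φ x * x⁻¹ ∈ ⁅(⊤ : Subgroup (Fn (k + 3))), (⊤ : Subgroup (Fn (k + 3)))⁆) → φ ∈ V)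
    {φ : MulAut (Fn (k + 3))} (hφ : Hyp (4 * M) φ) : φ ∈ V := by
  set m := 4 * M with hm
  have h := ad_one (k + 3)
  have f1 := fix_one φ
  have h4 : 4 ∣ m := dvd_mul_right 4 M
  have hm0 : m ≠ 0 := by omega
  have hm4 : 4 ≤ m := Nat.le_of_dvd (Nat.pos_of_ne_zero hm0) h4
  have hc : ∀ i j, (m : ℤ) ∣ Bm 1 id φ i j - (1 : Matrix (Fin (k + 3)) (Fin (k + 3)) ℤ) i j := by
    intro i j
    have h1 := hφ.dv 1 _ (D_der 1 (id j)) (of (id i))
    have h2 : D 1 (id j) (φ (of (id i)) * (of (id i))⁻¹) =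
        D 1 (id j) (φ (of (id i))) - D 1 (id j) (of (id i)) := by
      rw [D_der, (D_der 1 (id j)).inv]
      simp
      ring
    rw [h2] at h1
    have h3 := congrFun (congrFun h.Bm_one i) j
    rw [Bm_apply, MulAut.one_apply] at h3
    rw [Bm_apply, ← h3]
    exact h1
  have hdet : (Bm 1 id φ).det = 1 := by
    have h1 := congrArg Matrix.det (h.Bm_inv_mul f1)
    rw [Matrix.det_mul, Matrix.det_one] at h1
    have h2 : (m : ℤ) ∣ (Bm 1 id φ).det - 1 := by
      have h3 : (Bm 1 id φ).map (Int.castRingHom (ZMod m)) = 1 := by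
        ext i j
        have h4 := (ZMod.intCast_zmod_eq_zero_iff_dvd _ _).2 (hc i j)
        rw [Int.cast_sub, sub_eq_zero] at h4
        rw [Matrix.map_apply]
        show ((Bm 1 id φ i j : ℤ) : ZMod m) = _
        rw [h4, Matrix.one_apply, Matrix.one_apply]
        split_ifs <;> simp
      have h5 := RingHom.map_det (Int.castRingHom (ZMod m)) (Bm 1 id φ)
      rw [RingHom.mapMatrix_apply, h3, Matrix.det_one] at h5
      rw [← ZMod.intCast_zmod_eq_zero_iff_dvd, Int.cast_sub, Int.cast_one, sub_eq_zero]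
      exact h5
    have h3 := Int.isUnit_iff.1 (IsUnit.of_mul_eq_one_right _ h1)
    rcases h3 with h3 | h3
    · exact h3
    · rw [h3] at h2
      have := Int.le_of_dvd (by norm_num) ((dvd_neg.2 h2))
      omega
  obtain ⟨v, h1, h3⟩ := MT.main h4 hm0 k (HT_good V M hM) ⟨Bm 1 id φ, hdet⟩ (cong_iff.2 hc)
  have h5 : v⁻¹ * φ ∈ V := by
    refine hI _ fun x => comm_top fun d hd => ?_
    have e0 : IsDer (1 : Fn (k + 3) →* ℤˣ) (fun y => d (v⁻¹ y)) := hd.comp' (fix_one v⁻¹)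
    have e1 := h.agree (fix_one v) f1 h3 e0 (γ := x) rfl
    simp only [inv_ap] at e1
    rw [hd, hd.inv, MulAut.mul_apply, ← e1]
    simp
  have := mul_mem h1 h5
  rwa [mul_inv_cancel_left] at this

theorem csp_top (hn : 3 ≤ n) (V : Subgroup (MulAut (Fn n))) (hV : V.FiniteIndex)
    (hI : ∀ φ : MulAut (Fn n), (∀ x, φ x * x⁻¹ ∈ (⊤ : Subgroup (Fn n))) →
      (∀ x ∈ (⊤ : Subgroup (Fn n)),
        φ x * x⁻¹ ∈ ⁅(⊤ : Subgroup (Fn n)), (⊤ : Subgroup (Fn n))⁆) → φ ∈ V) :
    ∃ K : Subgroup (Fn n), K.Characteristic ∧ K.FiniteIndex ∧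
      ∀ φ : MulAut (Fn n), (∀ x, φ x * x⁻¹ ∈ K) → φ ∈ V := by
  obtain ⟨k, rfl⟩ : ∃ k, n = k + 3 := ⟨n - 3, by omega⟩
  have hfi : V.normalCore.FiniteIndex := inferInstance
  have hM : ∀ φ : MulAut (Fn (k + 3)), φ ^ V.normalCore.index ∈ V.normalCore := fun φ =>
    Subgroup.pow_index_mem V.normalCore φ
  have hle : lay (MonoidHom.id (MulAut (Fn (k + 3)))) (⊤ : Subgroup (Fn (k + 3)))
      ⁅(⊤ : Subgroup (Fn (k + 3))), (⊤ : Subgroup (Fn (k + 3)))⁆ ≤ V.normalCore := by
    have := lay_normal (MonoidHom.id (MulAut (Fn (k + 3)))) (⊤ : Subgroup (Fn (k + 3)))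
      ⁅(⊤ : Subgroup (Fn (k + 3))), (⊤ : Subgroup (Fn (k + 3)))⁆
    refine Subgroup.normal_le_normalCore.2 fun φ hφ => hI φ hφ.1 hφ.2
  refine ⟨Kd (k + 3) (4 * V.normalCore.index), inferInstance, Kd_fi _ ?_, fun φ hφ => ?_⟩
  · exact mul_ne_zero (by norm_num) hfi.index_ne_zero
  · exact V.normalCore_le (mem_of_hyp_top V.normalCore _ hfi.index_ne_zero hM
      (fun φ h1 => hle ⟨fun _ => Subgroup.mem_top _, fun x _ => h1 x⟩) (hyp_of_act hφ))

/-! ### The squares -/

/-- the subgroup generated by the squares -/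
def Sq (n : ℕ) : Subgroup (Fn n) := Subgroup.closure (Set.range fun x : Fn n => x ^ 2)

instance : (Sq n).Characteristic := by
  rw [Subgroup.characteristic_iff_map_le]
  intro φ
  rw [Sq, MonoidHom.map_closure, Subgroup.closure_le]
  rintro _ ⟨_, ⟨x, rfl⟩, rfl⟩
  exact Subgroup.subset_closure ⟨φ x, (map_pow φ x 2).symm⟩

theorem sq_mem (x : Fn n) : x ^ 2 ∈ Sq n := Subgroup.subset_closure ⟨x, rfl⟩

theorem Gam_eq : Gam n = Sq n := by
  apply le_antisymm
  · intro x hx
    rw [mem_Gam] at hx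
    have hsq : ∀ q : Fn n ⧸ Sq n, q ^ 2 = 1 := by
      intro q
      induction q using QuotientGroup.induction_on with
      | H z => exact (QuotientGroup.eq_one_iff _).2 (sq_mem z)
    have hcomm : ∀ a b : Fn n ⧸ Sq n, a * b = b * a := by
      intro a b
      have h1 := hsq (a * b)
      have h2 := hsq a
      have h3 := hsq b
      rw [sq] at h1 h2 h3
      calc a * b = a * (a * b * (a * b)) * b := by rw [h1, mul_one]
        _ = a * a * (b * a) * (b * b) := by simp only [mul_assoc]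
        _ = b * a := by rw [h2, h3, one_mul, mul_one]
    let _ : CommGroup (Fn n ⧸ Sq n) := { (inferInstance : Group (Fn n ⧸ Sq n)) with
      mul_comm := hcomm }
    let _ : Module (ZMod 2) (Additive (Fn n ⧸ Sq n)) :=
      AddCommGroup.zmodModule (n := 2) (fun a => by
        have := hsq a.toMul
        exact congrArg Additive.ofMul this)
    have h0 : (Additive.ofMul (QuotientGroup.mk x : Fn n ⧸ Sq n)) = 0 := by
      rw [← Module.forall_dual_apply_eq_zero_iff (ZMod 2)]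
      intro f
      let c : Multiplicative (ZMod 2) →* ℤˣ :=
        { toFun := fun t => if t.toAdd = 0 then 1 else -1
          map_one' := by simp
          map_mul' := by decide }
      let χ : Fn n →* ℤˣ :=
        { toFun := fun y =>
            c (Multiplicative.ofAdd (f (Additive.ofMul (QuotientGroup.mk y : Fn n ⧸ Sq n))))
          map_one' := by
            rw [QuotientGroup.mk_one, ofMul_one, map_zero, ofAdd_zero, map_one]
          map_mul' := fun y z => by
            rw [QuotientGroup.mk_mul, ofMul_mul, map_add, ofAdd_add, map_mul] }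
      have h1 : (if f (Additive.ofMul (QuotientGroup.mk x : Fn n ⧸ Sq n)) = 0 then (1 : ℤˣ)
        else -1) = 1 := hx χ
      by_contra hne
      rw [if_neg hne] at h1
      exact absurd h1 (by decide)
    exact (QuotientGroup.eq_one_iff x).1 (Additive.ofMul.injective h0)
  · rw [Sq, Subgroup.closure_le]
    rintro _ ⟨x, rfl⟩
    show x ^ 2 ∈ Gam n
    rw [mem_Gam]
    intro χ
    rw [map_pow, sq]
    exact Units.ext (u_sq _)

end Pool.Agent.W5h84.PR
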