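import Pool.Agent.W5h84.PR.Der

/-!
# The decomposition of `Hom (Γ, ℤ)` by characters
-/

set_option autoImplicit false

namespace Pool.Agent.W5h84.PR

open FreeGroup (of)

variable {n : ℕ}

/-- `ψ` acts trivially on the `χ`-part of the homology of `Γ` -/
def Triv (χ : Fn n →* ℤˣ) (ψ : MulAut (Fn n)) : Prop :=
  ∀ d, IsDer χ d → ∀ γ ∈ Gam n, d (ψ γ) = d γ

section transfer

noncomputable local instance : Fintype (Fn n ⧸ Gam n) := Fintype.ofFinite _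
noncomputable local instance : Fintype (Fn n →* ℤˣ) := Fintype.ofFinite _

/-- a section -/
noncomputable def sec (q : Fn n ⧸ Gam n) : Fn n := q.out

theorem mk_sec (q : Fn n ⧸ Gam n) : (QuotientGroup.mk (sec q) : Fn n ⧸ Gam n) = q :=
  QuotientGroup.out_eq' q

theorem sec_mem (q : Fn n ⧸ Gam n) (x : Fn n) :
    sec q * x * (sec (q * QuotientGroup.mk x))⁻¹ ∈ Gam n := by
  rw [← QuotientGroup.eq_one_iff, QuotientGroup.mk_mul, QuotientGroup.mk_mul,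
    QuotientGroup.mk_inv, mk_sec, mk_sec, mul_inv_cancel]

theorem chi_sec (χ : Fn n →* ℤˣ) (q : Fn n ⧸ Gam n) (x : Fn n) :
    χ (sec (q * QuotientGroup.mk x)) = χ (sec q) * χ x := by
  have := mem_Gam.1 (sec_mem q x) χ
  rw [map_mul, map_mul, map_inv, mul_inv_eq_one] at this
  exact this.symm

/-- the cocycle of a homomorphism -/
noncomputable def coc (h : Gam n →* Multiplicative ℤ) (q : Fn n ⧸ Gam n) (x : Fn n) : ℤ :=
  Multiplicative.toAdd (h ⟨_, sec_mem q x⟩)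

theorem coc_mul (h : Gam n →* Multiplicative ℤ) (q : Fn n ⧸ Gam n) (x y : Fn n) :
    coc h q (x * y) = coc h q x + coc h (q * QuotientGroup.mk x) y := by
  rw [coc, coc, coc, ← toAdd_mul, ← map_mul]
  congr 2
  apply Subtype.ext
  show sec q * (x * y) * (sec (q * QuotientGroup.mk (x * y)))⁻¹ =
    sec q * x * (sec (q * QuotientGroup.mk x))⁻¹ *
      (sec (q * QuotientGroup.mk x) * y * (sec (q * QuotientGroup.mk x * QuotientGroup.mk y))⁻¹)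
  rw [QuotientGroup.mk_mul, ← mul_assoc q]
  group

/-- the transferred derivation -/
noncomputable def tr (χ : Fn n →* ℤˣ) (h : Gam n →* Multiplicative ℤ) (x : Fn n) : ℤ :=
  ∑ q : Fn n ⧸ Gam n, (χ (sec q) : ℤ) * coc h q x

theorem tr_der (χ : Fn n →* ℤˣ) (h : Gam n →* Multiplicative ℤ) : IsDer χ (tr χ h) := by
  intro x y
  rw [tr, tr, tr]
  have h1 : ∑ q : Fn n ⧸ Gam n, (χ (sec q) : ℤ) * coc h q (x * y) =
      ∑ q : Fn n ⧸ Gam n, (χ (sec q) : ℤ) * coc h q x +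
      ∑ q : Fn n ⧸ Gam n, (χ x : ℤ) *
        ((χ (sec (q * QuotientGroup.mk x)) : ℤ) * coc h (q * QuotientGroup.mk x) y) := by
    rw [← Finset.sum_add_distrib]
    refine Finset.sum_congr rfl fun q _ => ?_
    rw [coc_mul, chi_sec]
    push_cast
    linear_combination (-((χ (sec q) : ℤ) * coc h (q * QuotientGroup.mk x) y)) * u_sq (χ x)
  rw [h1, ← Finset.mul_sum]
  congr 2
  exact Fintype.sum_equiv (Equiv.mulRight (QuotientGroup.mk x : Fn n ⧸ Gam n)) _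
    (fun q => (χ (sec q) : ℤ) * coc h q y) (fun q => rfl)

theorem sum_chi {y : Fn n} (hy : y ∉ Gam n) : ∑ χ : Fn n →* ℤˣ, (χ y : ℤ) = 0 := by
  rw [mem_Gam] at hy
  push Not at hy
  obtain ⟨χ1, h1⟩ := hy
  have h2 : χ1 y = -1 := (Int.units_eq_one_or _).resolve_left h1
  have h3 : ∑ χ : Fn n →* ℤˣ, (χ y : ℤ) = ∑ χ : Fn n →* ℤˣ, -(χ y : ℤ) := by
    refine Fintype.sum_equiv (Equiv.mulRight χ1) _ _ fun χ => ?_
    show (χ y : ℤ) = -(((χ * χ1) y : ℤˣ) : ℤ)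
    rw [MonoidHom.mul_apply, h2]
    simp
  rw [Finset.sum_neg_distrib] at h3
  linarith

theorem sum_tr (h : Gam n →* Multiplicative ℤ) {γ : Fn n} (hγ : γ ∈ Gam n) :
    ∑ χ : Fn n →* ℤˣ, tr χ h γ =
      (Fintype.card (Fn n →* ℤˣ) : ℤ) * Multiplicative.toAdd (h ⟨γ, hγ⟩) := by
  have hmk : (QuotientGroup.mk γ : Fn n ⧸ Gam n) = 1 := (QuotientGroup.eq_one_iff γ).2 hγ
  simp only [tr]
  rw [Finset.sum_comm]
  rw [Finset.sum_eq_single (1 : Fn n ⧸ Gam n)]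
  · have hs : sec (1 : Fn n ⧸ Gam n) ∈ Gam n := by
      rw [← QuotientGroup.eq_one_iff, mk_sec]
    have h1 : ∀ χ : Fn n →* ℤˣ, (χ (sec (1 : Fn n ⧸ Gam n)) : ℤ) * coc h 1 γ = coc h 1 γ := by
      intro χ
      rw [mem_Gam.1 hs χ]
      simp
    rw [Finset.sum_congr rfl fun χ _ => h1 χ, Finset.sum_const, Finset.card_univ, nsmul_eq_mul]
    congr 1
    rw [coc]
    have h2 : (⟨_, sec_mem (1 : Fn n ⧸ Gam n) γ⟩ : Gam n) =
        ⟨sec 1, hs⟩ * ⟨γ, hγ⟩ * ⟨sec 1, hs⟩⁻¹ := by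
      apply Subtype.ext
      show sec 1 * γ * (sec (1 * QuotientGroup.mk γ))⁻¹ = sec 1 * γ * (sec 1)⁻¹
      rw [hmk, mul_one]
    have h3 : h (⟨sec 1, hs⟩ * ⟨γ, hγ⟩ * ⟨sec 1, hs⟩⁻¹) = h ⟨γ, hγ⟩ := by
      rw [map_mul, map_mul, map_inv, mul_inv_cancel_comm]
    rw [h2, h3]
  · intro q _ hq
    rw [← Finset.sum_mul]
    have : sec q ∉ Gam n := by
      rw [← QuotientGroup.eq_one_iff, mk_sec]
      exact hq
    rw [sum_chi this, zero_mul]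
  · intro h
    exact absurd (Finset.mem_univ _) h

/-- If `ψ` preserves `Γ` and acts trivially on all parts, then it acts trivially on
`Γ / [Γ, Γ]`. -/
theorem triv_all {ψ : MulAut (Fn n)} (h : ∀ χ, Triv χ ψ) {γ : Fn n} (hγ : γ ∈ Gam n) :
    ψ γ * γ⁻¹ ∈ ⁅Gam n, Gam n⁆ := by
  have hψ : ψ γ ∈ Gam n := Subgroup.characteristic_iff_le_comap.1 inferInstance ψ hγ
  have hz : ψ γ * γ⁻¹ ∈ Gam n := mul_mem hψ (inv_mem hγ)
  refine comm_of_hom (Gam n) hz fun f => ?_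
  have h1 := sum_tr f hψ
  have h2 := sum_tr f hγ
  have h3 : ∑ χ : Fn n →* ℤˣ, tr χ f (ψ γ) = ∑ χ : Fn n →* ℤˣ, tr χ f γ :=
    Finset.sum_congr rfl fun χ _ => h χ _ (tr_der χ f) γ hγ
  rw [h1, h2] at h3
  have hc : (Fintype.card (Fn n →* ℤˣ) : ℤ) ≠ 0 := by
    exact_mod_cast Fintype.card_ne_zero
  have h4 := mul_left_cancel₀ hc h3
  have h5 : f ⟨ψ γ, hψ⟩ = f ⟨γ, hγ⟩ := Multiplicative.toAdd.injective h4
  have h6 : (⟨ψ γ * γ⁻¹, hz⟩ : Gam n) = ⟨ψ γ, hψ⟩ * ⟨γ, hγ⟩⁻¹ := rfl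
  rw [h6, map_mul, map_inv, h5, mul_inv_cancel]

end transfer

end Pool.Agent.W5h84.PR
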